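import Pool.Agent.Helper9.TW.St

/-!
# Project TW, module VL: lower bound for a product over primes
-/

set_option autoImplicit false

noncomputable section

namespace Pool.Agent.Helper82.TW

open Finset Pool.Agent.Helper9.TW
open Pool.Agent.Helper15.AB (StMT)

theorem exp_VL {h : ℝ} (h0 : 0 ≤ h) (h1 : h ≤ 1 / 2) : Real.exp (-(h + 2 * h ^ 2)) ≤ 1 - h := by
  have h2 : 0 ≤ h + 2 * h ^ 2 := by positivity
  have h3 := Real.add_one_le_exp (h + 2 * h ^ 2)
  rw [Real.exp_neg, inv_le_comm₀ (Real.exp_pos _) (by linarith)]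
  refine le_trans ?_ h3
  rw [inv_le_iff_one_le_mul₀ (by linarith)]
  have h4 : 0 ≤ h ^ 2 * (1 - 2 * h) := mul_nonneg (sq_nonneg _) (by linarith)
  nlinarith

theorem sq_VL (w : ℕ) : ∑ l ∈ (Icc 1 w).filter Nat.Prime, (1 : ℝ) / (l : ℝ) ^ 2 ≤ 2 := by
  have h1 := sum_Ioo_inv_sq_le (α := ℝ) 0 (w + 1)
  have h2 : ∑ l ∈ (Icc 1 w).filter Nat.Prime, (1 : ℝ) / (l : ℝ) ^ 2 ≤
      ∑ i ∈ Ioo 0 (w + 1), ((i : ℝ) ^ 2)⁻¹ := by
    simp only [one_div]
    refine Finset.sum_le_sum_of_subset_of_nonneg ?_ (fun i _ _ => by positivity)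
    intro l hl
    rw [Finset.mem_filter, Finset.mem_Icc] at hl
    rw [Finset.mem_Ioo]
    omega
  refine h2.trans (h1.trans ?_)
  norm_num

theorem hVL (hM : StMT) (h1 : StC1) : StVL := by
  obtain ⟨C, hC0, hC⟩ := hM
  refine ⟨Real.exp (-(3 * C + 36)), Real.exp_pos _, ?_⟩
  intro a θ ha hθ hθ1
  have ha3 : (3 : ℝ) ≤ a := by exact_mod_cast ha
  have hlog : 0 < Real.log a := Real.log_pos (by linarith)
  have hpow : (a : ℝ) ^ θ ≤ a := by
    calc (a : ℝ) ^ θ ≤ (a : ℝ) ^ (1 : ℝ) := Real.rpow_le_rpow_of_exponent_le (by linarith) hθ1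
      _ = a := Real.rpow_one _
  have hsub : Qs a θ ⊆ (Icc 1 a).filter Nat.Prime := by
    intro p hp
    rw [Qs, mem_filter, mem_Icc] at hp
    rw [mem_filter, mem_Icc]
    have : (p : ℝ) ≤ a := hp.2.2.le.trans hpow
    exact ⟨⟨by omega, by exact_mod_cast this⟩, hp.2.1⟩
  have hS1 : ∑ p ∈ Qs a θ, (1 : ℝ) / p ≤ Real.log (Real.log a) + C := by
    have h2 := hC a ha3
    rw [Nat.floor_natCast] at h2
    have h3 := (abs_le.1 h2).2
    have h4 : ∑ p ∈ Qs a θ, (1 : ℝ) / p ≤ ∑ l ∈ (Icc 1 a).filter Nat.Prime, (1 : ℝ) / l :=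
      sum_le_sum_of_subset_of_nonneg hsub fun i _ _ => by positivity
    linarith
  have hS2 : ∑ p ∈ Qs a θ, (1 : ℝ) / (p : ℝ) ^ 2 ≤ 2 :=
    (sum_le_sum_of_subset_of_nonneg hsub fun i _ _ => by positivity).trans (sq_VL a)
  have hterm : ∀ p ∈ Qs a θ, Real.exp (-(3 * (1 / (p : ℝ)) + 18 * (1 / (p : ℝ) ^ 2))) ≤ 1 - ga a p := by
    intro p hp
    rw [Qs, mem_filter, mem_Icc] at hp
    have hp7 : (7 : ℝ) ≤ p := by exact_mod_cast hp.1.1
    have hp0 : (0 : ℝ) < p := by linarith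
    have h2 := h1.2 a p hp.2.1 hp.1.1
    have h3 : ga a p ≤ 3 / p := by
      unfold ga
      refine div_le_div_of_nonneg_right ?_ hp0.le
      exact_mod_cast h2
    have h4 : (3 : ℝ) / p ≤ 1 / 2 := by
      rw [div_le_div_iff₀ hp0 (by norm_num)]
      linarith
    have h5 := exp_VL (h := 3 / p) (by positivity) h4
    have e : (3 : ℝ) * (1 / (p : ℝ)) + 18 * (1 / (p : ℝ) ^ 2) = 3 / p + 2 * (3 / p) ^ 2 := by
      field_simp
      ring
    rw [e]
    linarith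
  have hprod : ∏ p ∈ Qs a θ, Real.exp (-(3 * (1 / (p : ℝ)) + 18 * (1 / (p : ℝ) ^ 2))) ≤
      ∏ p ∈ Qs a θ, (1 - ga a p) :=
    prod_le_prod (fun p _ => (Real.exp_pos _).le) hterm
  refine le_trans ?_ hprod
  rw [← Real.exp_sum, sum_neg_distrib, sum_add_distrib, ← mul_sum, ← mul_sum]
  have e2 : Real.exp (-(3 * C + 36)) / Real.log a ^ 3 =
      Real.exp (-(3 * (Real.log (Real.log a) + C) + 36)) := by
    have e3 : -(3 * (Real.log (Real.log a) + C) + 36) = -(3 * C + 36) - 3 * Real.log (Real.log a) := by ring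
    have e4 : Real.exp (3 * Real.log (Real.log a)) = Real.log a ^ 3 := by
      have e5 : 3 * Real.log (Real.log a) = ((3 : ℕ) : ℝ) * Real.log (Real.log a) := by norm_num
      rw [e5, ← Real.log_pow, Real.exp_log (by positivity)]
    rw [e3, Real.exp_sub, e4]
  rw [e2]
  apply Real.exp_le_exp.2
  linarith

end Pool.Agent.Helper82.TW
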