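import Pool.Agent.Helper54.PT.DefsE
import Pool.Agent.Helper7.TW.B14

/-! MP_1d384c_nt, module D2 (main_term2). -/

set_option autoImplicit false
set_option linter.unusedSectionVars false

namespace Pool.Agent.Helper82.TWD2

open Finset Filter Topology Pool.Agent.Helper54.PT
open Pool.Agent.Helper7.TWB14 (norm_ee ee_add ee_sum sum_ee_mul sum_ee_dot sum_ee_dot2 sumOpt mt_eq Lx
  NN hatH_eq norm_NN)

variable {σ : Type} [Fintype σ] [DecidableEq σ] {J : Type} [Fintype J] [DecidableEq J]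

/-- A function on `Option σ` from its values. -/
abbrev ex (t : ZMod 2) (m : σ → ZMod 2) : Option σ → ZMod 2 := Pool.Agent.Helper7.TWB14.ext t m

theorem final_div2 {x : ℝ} (hx : x ≤ (2 : ℝ) ^ (Fintype.card J * (Fintype.card σ + 1)) * 2) :
    x / ‖NN 2 σ J‖ * 2 ^ Fintype.card σ ≤ 1 := by
  rw [norm_NN, div_mul_eq_mul_div, div_le_one (by positivity)]
  calc x * 2 ^ Fintype.card σ ≤ ((2 : ℝ) ^ (Fintype.card J * (Fintype.card σ + 1)) * 2) *
        2 ^ Fintype.card σ := mul_le_mul_of_nonneg_right hx (by positivity)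
    _ = ((2 : ℕ) : ℝ) ^ ((Fintype.card J + 1) * (Fintype.card σ + 1)) := by
        rw [mul_assoc, ← pow_succ', ← pow_add]
        push_cast
        congr 1
        ring

/-- The abstract bound: for every `b` at most one `η` and one `μ ∘ some` contribute. -/
theorem case_graph (τ : (J → ZMod 2) →+ (J → Option σ → ZMod 2))
    (H : (Option σ → J → ZMod 2) → (Option σ → J → ZMod 2) → (Option σ → ZMod 2) → Prop)
    (hH : ∀ κ : Option σ → ZMod 2, ∑ x : (Option σ → J → ZMod 2) × (Option σ → J → ZMod 2),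
      (open Classical in if H x.1 x.2 κ then (1 : ℝ) else 0) ≤
        (2 : ℝ) ^ (Fintype.card J * (Fintype.card σ + 1)))
    (κ₀ : σ → ZMod 2) (𝒰 : Finset ((J → ZMod 2) × (J → ZMod 2)))
    (u₀ : (J → ZMod 2) × (J → ZMod 2)) (hmem : u₀ ∈ 𝒰)
    (η₀ : (Option σ → J → ZMod 2) → Option σ → J → ZMod 2)
    (m₁ : (Option σ → J → ZMod 2) → σ → ZMod 2) (n : ℕ)
    (huniq : ∀ b η μ, (∀ u ∈ 𝒰, (∀ r, thet τ b η μ u (some r) = 0) ∧
      thet τ b η μ u none = thet τ b η μ u₀ none) → η = η₀ b ∧ ∀ r, μ (some r) = m₁ b r) :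
    ‖∑ b : Option σ → J → ZMod 2, ∑ η : Option σ → J → ZMod 2, ∑ μ : Option σ → ZMod 2,
      hatH (Hk H κ₀) b η μ * Pool.Agent.Helper54.PT.mt (thet τ b η μ) 𝒰 n‖ *
        2 ^ Fintype.card σ ≤ 1 := by
  classical
  have hth : ∀ (b η : Option σ → J → ZMod 2) (t : ZMod 2) (m : σ → ZMod 2) u,
      thet τ b η (ex t m) u none = thet τ b η (ex 0 m) u none + t := by
    intro b η t m u
    simp [thet, ex, Pool.Agent.Helper7.TWB14.ext]
  have hth2 : ∀ (b η : Option σ → J → ZMod 2) (t : ZMod 2) (m : σ → ZMod 2) u r,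
      thet τ b η (ex t m) u (some r) = thet τ b η (ex 0 m) u (some r) := by
    intro b η t m u r
    simp [thet, ex, Pool.Agent.Helper7.TWB14.ext]
  set P : (Option σ → J → ZMod 2) → Prop := fun b => ∀ u ∈ 𝒰,
    (∀ r, thet τ b (η₀ b) (ex 0 (m₁ b)) u (some r) = 0) ∧
      thet τ b (η₀ b) (ex 0 (m₁ b)) u none = thet τ b (η₀ b) (ex 0 (m₁ b)) u₀ none with hP
  set c₀ : (Option σ → J → ZMod 2) → ZMod 2 := fun b => thet τ b (η₀ b) (ex 0 (m₁ b)) u₀ none
    with hc₀
  have hmt : ∀ (b : Option σ → J → ZMod 2) (t : ZMod 2),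
      Pool.Agent.Helper54.PT.mt (thet τ b (η₀ b) (ex t (m₁ b))) 𝒰 n = if P b then
        ee ((c₀ b + t) * (n : ZMod 2)) else 0 := by
    intro b t
    rw [mt_eq _ 𝒰 n u₀ hmem (P b)]
    · rw [hth b (η₀ b) t (m₁ b) u₀]
    · refine forall₂_congr fun u _ => ?_
      rw [hth b _ t _ u, hth b _ t _ u₀, add_left_inj]
      refine and_congr (forall_congr' fun r => ?_) Iff.rfl
      rw [hth2 b _ t]
  have hmt0 : ∀ (b η : Option σ → J → ZMod 2) (μ : Option σ → ZMod 2),
      ¬ (η = η₀ b ∧ ∀ r, μ (some r) = m₁ b r) →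
      Pool.Agent.Helper54.PT.mt (thet τ b η μ) 𝒰 n = 0 := by
    intro b η μ h
    rw [mt_eq _ 𝒰 n u₀ hmem _ Iff.rfl, if_neg fun h1 => h (huniq b η μ h1)]
  -- reduce the sum
  have e1 : ∑ b : Option σ → J → ZMod 2, ∑ η : Option σ → J → ZMod 2, ∑ μ : Option σ → ZMod 2,
      hatH (Hk H κ₀) b η μ * Pool.Agent.Helper54.PT.mt (thet τ b η μ) 𝒰 n =
      ∑ b : Option σ → J → ZMod 2, ∑ t : ZMod 2, hatH (Hk H κ₀) b (η₀ b) (ex t (m₁ b)) *
        (if P b then ee ((c₀ b + t) * (n : ZMod 2)) else 0) := by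
    refine sum_congr rfl fun b _ => ?_
    rw [sum_eq_single (η₀ b)]
    · rw [sumOpt]
      refine sum_congr rfl fun t _ => ?_
      rw [sum_eq_single (m₁ b)]
      · rw [← hmt]
      · intro m _ hm
        rw [hmt0, mul_zero]
        rintro ⟨_, h⟩
        exact hm (funext h)
      · simp
    · intro η _ hη
      refine sum_eq_zero fun μ _ => ?_
      rw [hmt0, mul_zero]
      exact fun h => hη h.1
    · simp
  have e2 : ∀ b : Option σ → J → ZMod 2, ∑ t : ZMod 2, hatH (Hk H κ₀) b (η₀ b) (ex t (m₁ b)) *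
        (if P b then ee ((c₀ b + t) * (n : ZMod 2)) else 0) =
      (∑ x : (Option σ → J → ZMod 2) × (Option σ → ZMod 2), if Hk H κ₀ b x.1 x.2 then
        (if P b then ∑ t : ZMod 2, ee (Lx (η₀ b) x.1 (ex t (m₁ b)) x.2) *
          ee ((c₀ b + t) * (n : ZMod 2)) else 0) else 0) / NN 2 σ J := by
    intro b
    by_cases hb : P b
    · simp only [if_pos hb, hatH_eq, sum_div, sum_mul]
      rw [sum_comm]
      refine sum_congr rfl fun x _ => ?_
      split_ifs with hx
      · rw [sum_div]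
        refine sum_congr rfl fun p _ => by ring
      · simp
    · simp [if_neg hb]
  have e3 : ∀ (b : Option σ → J → ZMod 2) (x : (Option σ → J → ZMod 2) × (Option σ → ZMod 2)),
      ‖if P b then ∑ t : ZMod 2, ee (Lx (η₀ b) x.1 (ex t (m₁ b)) x.2) *
          ee ((c₀ b + t) * (n : ZMod 2)) else 0‖ ≤
        if x.2 none = (n : ZMod 2) then (2 : ℝ) else 0 := by
    intro b x
    by_cases hb : P b
    · rw [if_pos hb]
      have f1 : ∀ t : ZMod 2, ee (Lx (η₀ b) x.1 (ex t (m₁ b)) x.2) *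
          ee ((c₀ b + t) * (n : ZMod 2)) =
          ee (-(∑ s, ∑ j, η₀ b s j * x.1 s j + ∑ r, m₁ b r * x.2 (some r)) +
            c₀ b * (n : ZMod 2)) * ee (t * ((n : ZMod 2) - x.2 none)) := by
        intro t
        rw [← ee_add, ← ee_add]
        congr 1
        simp only [Lx]
        rw [Fintype.sum_option (f := fun s => ex t (m₁ b) s * x.2 s)]
        simp only [ex, Pool.Agent.Helper7.TWB14.ext, Option.elim]
        ring
      simp only [f1]
      rw [← mul_sum, norm_mul, norm_ee, one_mul, sum_ee_mul]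
      by_cases h : (n : ZMod 2) - x.2 none = 0
      · rw [if_pos h, if_pos (sub_eq_zero.1 h).symm, Complex.norm_natCast]
        simp
      · rw [if_neg h, if_neg fun h2 => h (by rw [h2, sub_self]), norm_zero]
    · rw [if_neg hb, norm_zero]
      split_ifs <;> positivity
  rw [e1, sum_congr rfl fun b _ => e2 b, ← sum_div, norm_div]
  refine final_div2 ?_
  calc ‖∑ b : Option σ → J → ZMod 2, ∑ x : (Option σ → J → ZMod 2) × (Option σ → ZMod 2),
        if Hk H κ₀ b x.1 x.2 then
        (if P b then ∑ t : ZMod 2, ee (Lx (η₀ b) x.1 (ex t (m₁ b)) x.2) *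
          ee ((c₀ b + t) * (n : ZMod 2)) else 0) else 0‖
      ≤ ∑ b : Option σ → J → ZMod 2, ∑ x : (Option σ → J → ZMod 2) × (Option σ → ZMod 2),
        ‖if Hk H κ₀ b x.1 x.2 then
        (if P b then ∑ t : ZMod 2, ee (Lx (η₀ b) x.1 (ex t (m₁ b)) x.2) *
          ee ((c₀ b + t) * (n : ZMod 2)) else 0) else 0‖ :=
        (norm_sum_le _ _).trans (sum_le_sum fun b _ => norm_sum_le _ _)
    _ ≤ ∑ b : Option σ → J → ZMod 2, ∑ x : (Option σ → J → ZMod 2) × (Option σ → ZMod 2),
        (if H b x.1 x.2 then (1 : ℝ) else 0) * (if x.2 = ex (n : ZMod 2) κ₀ then (2 : ℝ) else 0) := by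
        refine sum_le_sum fun b _ => sum_le_sum fun x _ => ?_
        by_cases hx : Hk H κ₀ b x.1 x.2
        · rw [if_pos hx, if_pos hx.1, one_mul]
          refine (e3 b x).trans ?_
          by_cases hn : x.2 none = (n : ZMod 2)
          · rw [if_pos hn, if_pos]
            funext s
            cases s with
            | none => exact hn
            | some r => exact hx.2 r
          · rw [if_neg hn]
            split_ifs <;> positivity
        · rw [if_neg hx, norm_zero]
          split_ifs <;> positivity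
    _ = ∑ κ : Option σ → ZMod 2, (∑ x : (Option σ → J → ZMod 2) × (Option σ → J → ZMod 2),
        (if H x.1 x.2 κ then (1 : ℝ) else 0)) * (if κ = ex (n : ZMod 2) κ₀ then (2 : ℝ) else 0) := by
        have g1 : ∀ b : Option σ → J → ZMod 2,
            ∑ x : (Option σ → J → ZMod 2) × (Option σ → ZMod 2),
            (if H b x.1 x.2 then (1 : ℝ) else 0) *
              (if x.2 = ex (n : ZMod 2) κ₀ then (2 : ℝ) else 0) =
            ∑ κ : Option σ → ZMod 2, ∑ y : Option σ → J → ZMod 2,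
            (if H b y κ then (1 : ℝ) else 0) * (if κ = ex (n : ZMod 2) κ₀ then (2 : ℝ) else 0) := by
          intro b
          rw [Fintype.sum_prod_type, sum_comm]
        rw [sum_congr rfl fun b _ => g1 b, sum_comm]
        refine sum_congr rfl fun κ _ => ?_
        rw [Fintype.sum_prod_type, sum_mul]
        refine sum_congr rfl fun b _ => ?_
        rw [sum_mul]
    _ ≤ ∑ κ : Option σ → ZMod 2, (2 : ℝ) ^ (Fintype.card J * (Fintype.card σ + 1)) *
          (if κ = ex (n : ZMod 2) κ₀ then (2 : ℝ) else 0) := by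
        refine sum_le_sum fun κ _ => mul_le_mul_of_nonneg_right ?_ (by split_ifs <;> positivity)
        refine le_trans (le_of_eq ?_) (hH κ)
        exact sum_congr rfl fun x _ => by congr
    _ = (2 : ℝ) ^ (Fintype.card J * (Fintype.card σ + 1)) * 2 := by
        rw [← mul_sum, sum_ite_eq' univ _ (fun _ => (2 : ℝ)), if_pos (mem_univ _)]

theorem case_one (τ : (J → ZMod 2) →+ (J → Option σ → ZMod 2))
    (H : (Option σ → J → ZMod 2) → (Option σ → J → ZMod 2) → (Option σ → ZMod 2) → Prop)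
    (v₀ : J → ZMod 2) (𝒰 : Finset ((J → ZMod 2) × (J → ZMod 2)))
    (h𝒰 : ∀ u, u ∈ 𝒰 ↔ u.1 = v₀) (κ₀ : σ → ZMod 2) (n : ℕ) :
    ‖∑ b : Option σ → J → ZMod 2, ∑ η : Option σ → J → ZMod 2, ∑ μ : Option σ → ZMod 2,
      hatH (Hk H κ₀) b η μ * Pool.Agent.Helper54.PT.mt (thet τ b η μ) 𝒰 n‖ *
        2 ^ Fintype.card σ ≤ 1 := by
  classical
  set b₀ : Option σ → J → ZMod 2 := fun s j => τ v₀ j s with hb₀
  set m₀ : (Option σ → J → ZMod 2) → σ → ZMod 2 := fun η r => -∑ j, η (some r) j * v₀ j with hm₀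
  have hmem : ((v₀, 0) : (J → ZMod 2) × (J → ZMod 2)) ∈ 𝒰 := (h𝒰 _).2 rfl
  have hth : ∀ (b η : Option σ → J → ZMod 2) (μ : Option σ → ZMod 2) (w : J → ZMod 2) (s : Option σ),
      thet τ b η μ (v₀, w) s = ∑ j, w j * (b s j - b₀ s j) + (∑ j, η s j * v₀ j + μ s) := by
    intro b η μ w s
    simp only [thet, sum_add_distrib, hb₀]
    ring
  have hmt : ∀ (b η : Option σ → J → ZMod 2) (μ : Option σ → ZMod 2),
      Pool.Agent.Helper54.PT.mt (thet τ b η μ) 𝒰 n = if b = b₀ ∧ ∀ r, μ (some r) = m₀ η r then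
        ee ((∑ j, η none j * v₀ j + μ none) * (n : ZMod 2)) else 0 := by
    intro b η μ
    rw [mt_eq (thet τ b η μ) 𝒰 n (v₀, 0) hmem (b = b₀ ∧ ∀ r, μ (some r) = m₀ η r)]
    · rw [hth]
      simp
    · constructor
      · rintro ⟨rfl, h2⟩ u hu
        obtain ⟨v, w⟩ := u
        obtain rfl : v = v₀ := (h𝒰 _).1 hu
        rw [hth, hth]
        refine ⟨fun r => ?_, by simp⟩
        rw [hth, h2 r, hm₀]
        simp only [sub_self, mul_zero, sum_const_zero, zero_add, add_neg_cancel]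
      · intro h
        have h0 := fun r => (h _ hmem).1 r
        have hj : ∀ (j : J), ((v₀, Pi.single j 1) : (J → ZMod 2) × (J → ZMod 2)) ∈ 𝒰 := fun j =>
          (h𝒰 _).2 rfl
        have hsingle : ∀ (j : J) (c : J → ZMod 2),
            ∑ i, (Pi.single j (1 : ZMod 2) : J → ZMod 2) i * c i = c j := by
          intro j c
          rw [sum_eq_single j]
          · simp
          · intro i _ hi
            simp [Pi.single_eq_of_ne hi]
          · simp
        simp only [hth, Pi.zero_apply, zero_mul, sum_const_zero, zero_add] at h0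
        refine ⟨?_, fun r => ?_⟩
        · funext s j
          cases s with
          | none =>
            have h1 := (h _ (hj j)).2
            rw [hth, hth] at h1
            simp only [hsingle, Pi.zero_apply, zero_mul, sum_const_zero, zero_add] at h1
            have h2 : b none j - b₀ none j = 0 := by linear_combination h1
            exact sub_eq_zero.1 h2
          | some r =>
            have h1 := (h _ (hj j)).1 r
            rw [hth] at h1
            simp only [hsingle] at h1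
            have h2 : b (some r) j - b₀ (some r) j = 0 := by linear_combination h1 - h0 r
            exact sub_eq_zero.1 h2
        · simp only [hm₀]
          linear_combination h0 r
  -- reduce the sum
  have e1 : ∑ b : Option σ → J → ZMod 2, ∑ η : Option σ → J → ZMod 2, ∑ μ : Option σ → ZMod 2,
      hatH (Hk H κ₀) b η μ * Pool.Agent.Helper54.PT.mt (thet τ b η μ) 𝒰 n =
      ∑ p : (Option σ → J → ZMod 2) × ZMod 2, hatH (Hk H κ₀) b₀ p.1 (ex p.2 (m₀ p.1)) *
        ee ((∑ j, p.1 none j * v₀ j + p.2) * (n : ZMod 2)) := by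
    rw [sum_eq_single b₀, Fintype.sum_prod_type]
    · refine sum_congr rfl fun η _ => ?_
      rw [sumOpt]
      refine sum_congr rfl fun t _ => ?_
      rw [sum_eq_single (m₀ η)]
      · rw [hmt, if_pos ⟨rfl, fun r => rfl⟩]
        rfl
      · intro m _ hm
        rw [hmt, if_neg, mul_zero]
        rintro ⟨_, h⟩
        exact hm (funext h)
      · simp
    · intro b _ hb
      refine sum_eq_zero fun η _ => sum_eq_zero fun μ _ => ?_
      rw [hmt, if_neg fun h => hb h.1, mul_zero]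
    · simp
  -- exchange
  have e2 : ∑ p : (Option σ → J → ZMod 2) × ZMod 2, hatH (Hk H κ₀) b₀ p.1 (ex p.2 (m₀ p.1)) *
        ee ((∑ j, p.1 none j * v₀ j + p.2) * (n : ZMod 2)) =
      (∑ x : (Option σ → J → ZMod 2) × (Option σ → ZMod 2), if Hk H κ₀ b₀ x.1 x.2 then
        ∑ p : (Option σ → J → ZMod 2) × ZMod 2, ee (Lx p.1 x.1 (ex p.2 (m₀ p.1)) x.2) *
          ee ((∑ j, p.1 none j * v₀ j + p.2) * (n : ZMod 2)) else 0) / NN 2 σ J := by
    simp only [hatH_eq, sum_div, sum_mul]
    rw [sum_comm]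
    refine sum_congr rfl fun x _ => ?_
    split_ifs with hx
    · rw [sum_div]
      refine sum_congr rfl fun p _ => by ring
    · simp
  -- evaluation of the inner sum
  have e3 : ∀ x : (Option σ → J → ZMod 2) × (Option σ → ZMod 2),
      ∑ p : (Option σ → J → ZMod 2) × ZMod 2, ee (Lx p.1 x.1 (ex p.2 (m₀ p.1)) x.2) *
          ee ((∑ j, p.1 none j * v₀ j + p.2) * (n : ZMod 2)) =
      (if (fun (s : Option σ) (j : J) => (s.elim (n : ZMod 2) fun r => x.2 (some r)) * v₀ j - x.1 s j) = 0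
        then ((2 : ℕ) : ℂ) ^ (Fintype.card J * Fintype.card (Option σ)) else 0) *
        (if (n : ZMod 2) - x.2 none = 0 then ((2 : ℕ) : ℂ) else 0) := by
    intro x
    rw [← sum_ee_dot2, ← sum_ee_mul, sum_mul_sum, Fintype.sum_prod_type]
    refine sum_congr rfl fun η _ => sum_congr rfl fun t _ => ?_
    rw [← ee_add, ← ee_add]
    congr 1
    simp only [Lx, hm₀]
    rw [Fintype.sum_option, Fintype.sum_option, Fintype.sum_option]
    simp only [ex, Pool.Agent.Helper7.TWB14.ext, Option.elim, neg_mul, sum_neg_distrib, mul_sub, sum_sub_distrib, sum_mul]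
    have f1 : ∀ r, ∑ j, η (some r) j * (x.2 (some r) * v₀ j) =
        ∑ j, η (some r) j * v₀ j * x.2 (some r) := fun r =>
      sum_congr rfl fun j _ => by ring
    have f2 : ∑ j, η none j * ((n : ZMod 2) * v₀ j) = (∑ j, η none j * v₀ j) * (n : ZMod 2) := by
      rw [sum_mul]
      exact sum_congr rfl fun j _ => by ring
    simp only [f1, f2]
    ring
  rw [e1, e2, norm_div]
  refine final_div2 ?_
  calc ‖∑ x : (Option σ → J → ZMod 2) × (Option σ → ZMod 2), if Hk H κ₀ b₀ x.1 x.2 then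
        ∑ p : (Option σ → J → ZMod 2) × ZMod 2, ee (Lx p.1 x.1 (ex p.2 (m₀ p.1)) x.2) *
          ee ((∑ j, p.1 none j * v₀ j + p.2) * (n : ZMod 2)) else 0‖
      ≤ ∑ x : (Option σ → J → ZMod 2) × (Option σ → ZMod 2),
        ‖if Hk H κ₀ b₀ x.1 x.2 then
        ∑ p : (Option σ → J → ZMod 2) × ZMod 2, ee (Lx p.1 x.1 (ex p.2 (m₀ p.1)) x.2) *
          ee ((∑ j, p.1 none j * v₀ j + p.2) * (n : ZMod 2)) else 0‖ := norm_sum_le _ _
    _ ≤ ∑ x : (Option σ → J → ZMod 2) × (Option σ → ZMod 2),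
        (if x.1 = (fun (s : Option σ) (j : J) => (s.elim (n : ZMod 2) fun r => x.2 (some r)) * v₀ j)
          then (2 : ℝ) ^ (Fintype.card J * Fintype.card (Option σ)) else 0) *
        (if x.2 = ex (n : ZMod 2) κ₀ then (2 : ℝ) else 0) := by
        refine sum_le_sum fun x _ => ?_
        have hnn : 0 ≤ (if x.1 = (fun (s : Option σ) (j : J) =>
            (s.elim (n : ZMod 2) fun r => x.2 (some r)) * v₀ j)
          then (2 : ℝ) ^ (Fintype.card J * Fintype.card (Option σ)) else 0) *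
          (if x.2 = ex (n : ZMod 2) κ₀ then (2 : ℝ) else 0) := by
          split_ifs <;> positivity
        by_cases hx : Hk H κ₀ b₀ x.1 x.2
        · rw [if_pos hx, e3, norm_mul]
          refine mul_le_mul ?_ ?_ (norm_nonneg _) ?_
          · by_cases h : (fun (s : Option σ) (j : J) =>
                (s.elim (n : ZMod 2) fun r => x.2 (some r)) * v₀ j - x.1 s j) = 0
            · rw [if_pos h, if_pos]
              · simp
              · funext s j
                have := congrFun (congrFun h s) j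
                simp only [Pi.zero_apply] at this
                exact (sub_eq_zero.1 this).symm
            · rw [if_neg h, norm_zero]
              split_ifs <;> positivity
          · by_cases h : (n : ZMod 2) - x.2 none = 0
            · rw [if_pos h, if_pos]
              · simp
              · funext s
                cases s with
                | none => exact (sub_eq_zero.1 h).symm
                | some r => exact hx.2 r
            · rw [if_neg h, norm_zero]
              split_ifs <;> positivity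
          · split_ifs <;> positivity
        · rw [if_neg hx, norm_zero]
          exact hnn
    _ = (2 : ℝ) ^ (Fintype.card J * Fintype.card (Option σ)) * 2 := by
        rw [Fintype.sum_prod_type, sum_comm, sum_eq_single (ex (n : ZMod 2) κ₀)]
        · simp only [if_true]
          rw [← sum_mul, sum_ite_eq' univ _ (fun _ => (2 : ℝ) ^ _), if_pos (mem_univ _)]
        · intro κ _ hκ
          simp only [if_neg hκ, mul_zero, sum_const_zero]
        · intro h
          exact absurd (mem_univ _) h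
    _ ≤ (2 : ℝ) ^ (Fintype.card J * (Fintype.card σ + 1)) * 2 := by
        rw [Fintype.card_option]

theorem case_phi (τ : (J → ZMod 2) →+ (J → Option σ → ZMod 2))
    (H : (Option σ → J → ZMod 2) → (Option σ → J → ZMod 2) → (Option σ → ZMod 2) → Prop)
    (hH : ∀ κ : Option σ → ZMod 2, ∑ x : (Option σ → J → ZMod 2) × (Option σ → J → ZMod 2),
      (open Classical in if H x.1 x.2 κ then (1 : ℝ) else 0) ≤
        (2 : ℝ) ^ (Fintype.card J * (Fintype.card σ + 1)))
    (κ₀ : σ → ZMod 2) (𝒰 : Finset ((J → ZMod 2) × (J → ZMod 2)))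
    (φ : (J → ZMod 2) → (J → ZMod 2)) (h𝒰 : ∀ u, u ∈ 𝒰 ↔ u.2 = φ u.1) (n : ℕ) :
    ‖∑ b : Option σ → J → ZMod 2, ∑ η : Option σ → J → ZMod 2, ∑ μ : Option σ → ZMod 2,
      hatH (Hk H κ₀) b η μ * Pool.Agent.Helper54.PT.mt (thet τ b η μ) 𝒰 n‖ *
        2 ^ Fintype.card σ ≤ 1 := by
  classical
  set u₀ : (J → ZMod 2) × (J → ZMod 2) := (0, φ 0) with hu₀
  have hmem : u₀ ∈ 𝒰 := (h𝒰 _).2 rfl
  set Q : (Option σ → J → ZMod 2) → (Option σ → J → ZMod 2) → (Option σ → ZMod 2) → Prop :=
    fun b η μ => ∀ u ∈ 𝒰, (∀ r, thet τ b η μ u (some r) = 0) ∧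
      thet τ b η μ u none = thet τ b η μ u₀ none with hQ
  have hsingle : ∀ (j : J) (c : J → ZMod 2),
      ∑ i, c i * (Pi.single j (1 : ZMod 2) : J → ZMod 2) i = c j := by
    intro j c
    rw [sum_eq_single j]
    · simp
    · intro i _ hi
      simp [Pi.single_eq_of_ne hi]
    · simp
  have hdiff : ∀ (b η η' : Option σ → J → ZMod 2) (μ μ' : Option σ → ZMod 2)
      (u : (J → ZMod 2) × (J → ZMod 2)) (s : Option σ),
      thet τ b η μ u s - thet τ b η' μ' u s =
        ∑ j, η s j * u.1 j - ∑ j, η' s j * u.1 j + (μ s - μ' s) := by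
    intro b η η' μ μ' u s
    simp only [thet, sum_add_distrib]
    ring
  have hj : ∀ j : J, ((Pi.single j 1, φ (Pi.single j 1)) : (J → ZMod 2) × (J → ZMod 2)) ∈ 𝒰 :=
    fun j => (h𝒰 _).2 rfl
  have key : ∀ b η μ η' μ', Q b η μ → Q b η' μ' → η = η' ∧ ∀ r, μ (some r) = μ' (some r) := by
    intro b η μ η' μ' h1 h2
    have h3 : ∀ r, μ (some r) = μ' (some r) := by
      intro r
      have h4 := hdiff b η η' μ μ' u₀ (some r)
      rw [(h1 u₀ hmem).1 r, (h2 u₀ hmem).1 r] at h4
      simp only [hu₀, Pi.zero_apply, mul_zero, sum_const_zero, sub_self, zero_add] at h4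
      exact (sub_eq_zero.1 h4.symm)
    refine ⟨?_, h3⟩
    funext s j
    cases s with
    | none =>
      have h4 := hdiff b η η' μ μ' (Pi.single j 1, φ (Pi.single j 1)) none
      have h5 := hdiff b η η' μ μ' u₀ none
      rw [(h1 _ (hj j)).2, (h2 _ (hj j)).2, h5] at h4
      simp only [hsingle, hu₀, Pi.zero_apply, mul_zero, sum_const_zero, sub_self, zero_add] at h4
      have h6 : η none j - η' none j = 0 := by linear_combination -h4
      exact sub_eq_zero.1 h6
    | some r =>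
      have h4 := hdiff b η η' μ μ' (Pi.single j 1, φ (Pi.single j 1)) (some r)
      rw [(h1 _ (hj j)).1 r, (h2 _ (hj j)).1 r, h3 r] at h4
      simp only [hsingle, sub_self, add_zero] at h4
      exact sub_eq_zero.1 h4.symm
  refine case_graph τ H hH κ₀ 𝒰 u₀ hmem
    (fun b => if h : ∃ p : (Option σ → J → ZMod 2) × (Option σ → ZMod 2), Q b p.1 p.2 then
      h.choose.1 else 0)
    (fun b => if h : ∃ p : (Option σ → J → ZMod 2) × (Option σ → ZMod 2), Q b p.1 p.2 then
      fun r => h.choose.2 (some r) else 0) n ?_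
  intro b η μ h
  have hex : ∃ p : (Option σ → J → ZMod 2) × (Option σ → ZMod 2), Q b p.1 p.2 := ⟨(η, μ), h⟩
  simp only [dif_pos hex]
  exact key b η μ _ _ h hex.choose_spec

theorem case_zero (τ : (J → ZMod 2) →+ (J → Option σ → ZMod 2)) (hτ : Generic2 τ)
    (𝒰 : Finset ((J → ZMod 2) × (J → ZMod 2))) (h1 : Unl PhiJ 𝒰)
    (h2 : 𝒰.card = 2 ^ Fintype.card J) (h3 : ¬ IsStd 𝒰) (h3' : ¬ IsStd3 𝒰)
    (b η : Option σ → J → ZMod 2) (μ : Option σ → ZMod 2) (n : ℕ) :
    Pool.Agent.Helper54.PT.mt (thet τ b η μ) 𝒰 n = 0 := by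
  obtain ⟨r, hr⟩ := hτ 𝒰 h1 h2 h3 h3'
  unfold Pool.Agent.Helper54.PT.mt
  rw [dif_neg]
  rintro ⟨γ, hγ⟩
  refine hr ⟨η (some r), b (some r), μ (some r), fun u hu => ?_⟩
  have h4 := (hγ u hu).1 r
  simp only [thet, sum_add_distrib, mul_sub, sum_sub_distrib] at h4 ⊢
  have h5 : ∑ j, u.2 j * b (some r) j = ∑ j, b (some r) j * u.2 j :=
    sum_congr rfl fun j _ => mul_comm _ _
  rw [h5] at h4
  linear_combination -h4

end Pool.Agent.Helper82.TWD2

namespace Pool.Agent.Helper54.PT

open Finset Filter Topology Pool.Agent.Helper82.TWD2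

section

variable {σ : Type} [Fintype σ] [DecidableEq σ] {J : Type} [Fintype J] [DecidableEq J]

open Classical in
/-- D2: the finite main term for `ℓ = 2` -/
theorem main_term2 (τ : (J → ZMod 2) →+ (J → Option σ → ZMod 2))
    (H : (Option σ → J → ZMod 2) → (Option σ → J → ZMod 2) → (Option σ → ZMod 2) → Prop)
    (hτ : Generic2 τ)
    (hH : ∀ κ : Option σ → ZMod 2, (univ.filter fun x : (Option σ → J → ZMod 2) ×
      (Option σ → J → ZMod 2) => H x.1 x.2 κ).card ≤
        2 ^ (Fintype.card J * (Fintype.card σ + 1))) (κ₀ : σ → ZMod 2) (n : ℕ) :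
    ‖∑ 𝒰 ∈ maxU (PhiJ (ℓ := 2) (J := J)) (2 ^ Fintype.card J),
      ∑ b : Option σ → J → ZMod 2, ∑ η : Option σ → J → ZMod 2, ∑ μ : Option σ → ZMod 2,
        hatH (Hk H κ₀) b η μ * mt (thet τ b η μ) 𝒰 n‖ * 2 ^ Fintype.card σ ≤
          3 * (2 : ℝ) ^ Fintype.card J := by
  have hH' : ∀ κ : Option σ → ZMod 2, ∑ x : (Option σ → J → ZMod 2) × (Option σ → J → ZMod 2),
      (if H x.1 x.2 κ then (1 : ℝ) else 0) ≤
        (2 : ℝ) ^ (Fintype.card J * (Fintype.card σ + 1)) := by
    intro κ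
    rw [← sum_filter, sum_const, nsmul_eq_mul, mul_one]
    exact_mod_cast hH κ
  have hstd : ∀ 𝒰 ∈ maxU (PhiJ (ℓ := 2) (J := J)) (2 ^ Fintype.card J),
      ‖∑ b : Option σ → J → ZMod 2, ∑ η : Option σ → J → ZMod 2, ∑ μ : Option σ → ZMod 2,
        hatH (Hk H κ₀) b η μ * Pool.Agent.Helper54.PT.mt (thet τ b η μ) 𝒰 n‖ *
          2 ^ Fintype.card σ ≤ if IsStd 𝒰 ∨ IsStd3 𝒰 then (1 : ℝ) else 0 := by
    intro 𝒰 h𝒰
    have h1 : Unl PhiJ 𝒰 ∧ 𝒰.card = 2 ^ Fintype.card J := by simpa [maxU] using h𝒰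
    split_ifs with h
    · rcases h with (⟨v₀, hv⟩ | ⟨w₀, hw⟩) | ⟨w₀, hw⟩
      · exact case_one τ H v₀ 𝒰 hv κ₀ n
      · exact case_phi τ H hH' κ₀ 𝒰 (fun _ => w₀) hw n
      · refine case_phi τ H hH' κ₀ 𝒰 (fun v j => w₀ j + v j + ∑ i, v i) (fun u => ?_) n
        rw [hw]
        exact funext_iff.symm
    · rw [not_or] at h
      simp only [case_zero τ hτ 𝒰 h1.1 h1.2 h.1 h.2, mul_zero, sum_const_zero, norm_zero,
        zero_mul, le_refl]
  have hle : ‖∑ 𝒰 ∈ maxU (PhiJ (ℓ := 2) (J := J)) (2 ^ Fintype.card J),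
      ∑ b : Option σ → J → ZMod 2, ∑ η : Option σ → J → ZMod 2, ∑ μ : Option σ → ZMod 2,
        hatH (Hk H κ₀) b η μ * mt (thet τ b η μ) 𝒰 n‖ * 2 ^ Fintype.card σ ≤
      ∑ 𝒰 ∈ maxU (PhiJ (ℓ := 2) (J := J)) (2 ^ Fintype.card J),
        if IsStd 𝒰 ∨ IsStd3 𝒰 then (1 : ℝ) else 0 := by
    refine (mul_le_mul_of_nonneg_right (norm_sum_le _ _) (by positivity)).trans ?_
    rw [sum_mul]
    exact sum_le_sum hstd
  refine hle.trans ?_
  rw [← sum_filter, sum_const, nsmul_eq_mul, mul_one]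
  have hsub : (maxU (PhiJ (ℓ := 2) (J := J)) (2 ^ Fintype.card J)).filter
        (fun 𝒰 => IsStd 𝒰 ∨ IsStd3 𝒰) ⊆
      (univ.image fun v₀ : J → ZMod 2 =>
        (univ.filter fun u : (J → ZMod 2) × (J → ZMod 2) => u.1 = v₀)) ∪
      (univ.image fun w₀ : J → ZMod 2 =>
        (univ.filter fun u : (J → ZMod 2) × (J → ZMod 2) => u.2 = w₀)) ∪
      (univ.image fun w₀ : J → ZMod 2 =>
        (univ.filter fun u : (J → ZMod 2) × (J → ZMod 2) =>
          ∀ j, u.2 j = w₀ j + u.1 j + ∑ i, u.1 i)) := by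
    intro 𝒰 h𝒰
    rw [mem_union, mem_union, mem_image, mem_image, mem_image]
    rcases (mem_filter.1 h𝒰).2 with (⟨v₀, hv⟩ | ⟨w₀, hw⟩) | ⟨w₀, hw⟩
    · left
      left
      refine ⟨v₀, mem_univ _, ?_⟩
      ext u
      rw [mem_filter, hv]
      simp
    · left
      right
      refine ⟨w₀, mem_univ _, ?_⟩
      ext u
      rw [mem_filter, hw]
      simp
    · right
      refine ⟨w₀, mem_univ _, ?_⟩
      ext u
      rw [mem_filter, hw]
      simp
  have hcard : ((maxU (PhiJ (ℓ := 2) (J := J)) (2 ^ Fintype.card J)).filter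
      (fun 𝒰 => IsStd 𝒰 ∨ IsStd3 𝒰)).card ≤ 3 * 2 ^ Fintype.card J := by
    refine (card_le_card hsub).trans ((card_union_le _ _).trans ?_)
    have c0 := card_union_le (univ.image fun v₀ : J → ZMod 2 =>
        (univ.filter fun u : (J → ZMod 2) × (J → ZMod 2) => u.1 = v₀))
      (univ.image fun w₀ : J → ZMod 2 =>
        (univ.filter fun u : (J → ZMod 2) × (J → ZMod 2) => u.2 = w₀))
    have c1 := card_image_le (s := (univ : Finset (J → ZMod 2))) (f := fun v₀ : J → ZMod 2 =>
        (univ.filter fun u : (J → ZMod 2) × (J → ZMod 2) => u.1 = v₀))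
    have c2 := card_image_le (s := (univ : Finset (J → ZMod 2))) (f := fun w₀ : J → ZMod 2 =>
        (univ.filter fun u : (J → ZMod 2) × (J → ZMod 2) => u.2 = w₀))
    have c4 := card_image_le (s := (univ : Finset (J → ZMod 2))) (f := fun w₀ : J → ZMod 2 =>
        (univ.filter fun u : (J → ZMod 2) × (J → ZMod 2) =>
          ∀ j, u.2 j = w₀ j + u.1 j + ∑ i, u.1 i))
    have c3 : (univ : Finset (J → ZMod 2)).card = 2 ^ Fintype.card J := by
      rw [card_univ, Fintype.card_fun, ZMod.card]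
    omega
  exact_mod_cast hcard

end

end Pool.Agent.Helper54.PT
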