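import Pool.Agent.Helper13.TW.StA

/-!
# Project TW, module ARX: a path contains an arc
-/

set_option autoImplicit false

namespace Pool.Agent.Helper82.TW

open Set Topology Pool.Agent.Helper13.TR Pool.Agent.Helper13.TW

section one

variable {S : Type} [TopologicalSpace S]

/-- closed sets of parameters with equal values at the ends of the gaps -/
private def Fam (γ : ℝ → S) : Set (Set ℝ) :=
  {A | IsClosed A ∧ A ⊆ Icc 0 1 ∧ (0 : ℝ) ∈ A ∧ (1 : ℝ) ∈ A ∧
    ∀ s ∈ A, ∀ t ∈ A, s < t → Ioo s t ∩ A = ∅ → γ s = γ t}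

private theorem fam_Icc (γ : ℝ → S) : Icc (0 : ℝ) 1 ∈ Fam γ := by
  refine ⟨isClosed_Icc, subset_rfl, ⟨le_rfl, zero_le_one⟩, ⟨zero_le_one, le_rfl⟩, ?_⟩
  intro s hs t ht hst h
  exfalso
  have : (s + t) / 2 ∈ Ioo s t ∩ Icc (0 : ℝ) 1 :=
    ⟨⟨by linarith, by linarith⟩, ⟨by linarith [hs.1, ht.1], by linarith [hs.2, ht.2]⟩⟩
  rw [h] at this
  exact this

private theorem fam_chain [T2Space S] {γ : ℝ → S} (hγ : Continuous γ) (c : Set (Set ℝ))
    (hc : c ⊆ Fam γ) (hch : IsChain (· ⊆ ·) c) (hne : c.Nonempty) : ⋂₀ c ∈ Fam γ := by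
  obtain ⟨A0, hA0⟩ := hne
  refine ⟨isClosed_sInter fun A hA => (hc hA).1, (sInter_subset_of_mem hA0).trans (hc hA0).2.1,
    mem_sInter.2 fun A hA => (hc hA).2.2.1, mem_sInter.2 fun A hA => (hc hA).2.2.2.1, ?_⟩
  intro s hs t ht hst hgap
  by_contra hne
  obtain ⟨U, V, hU, hV, hsU, htV, hUV⟩ := t2_separation hne
  obtain ⟨ε, hε, h1⟩ := Metric.mem_nhds_iff.1 (hγ.continuousAt (x := s) (hU.mem_nhds hsU))
  obtain ⟨δ, hδ, h2⟩ := Metric.mem_nhds_iff.1 (hγ.continuousAt (x := t) (hV.mem_nhds htV))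
  obtain ⟨η, hη, hη1, hη2, hη3⟩ : ∃ η : ℝ, 0 < η ∧ η < ε ∧ η < δ ∧ s + η < t - η := by
    refine ⟨min (min ε δ) (t - s) / 3, ?_, ?_, ?_, ?_⟩
    · have : 0 < min (min ε δ) (t - s) := lt_min (lt_min hε hδ) (by linarith)
      linarith
    · have h3 : min (min ε δ) (t - s) ≤ ε := (min_le_left _ _).trans (min_le_left _ _)
      linarith
    · have h3 : min (min ε δ) (t - s) ≤ δ := (min_le_left _ _).trans (min_le_right _ _)
      linarith
    · have h3 : min (min ε δ) (t - s) ≤ t - s := min_le_right _ _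
      linarith
  have hinst : Nonempty c := ⟨⟨A0, hA0⟩⟩
  obtain ⟨⟨A, hA⟩, hKA⟩ := (isCompact_Icc (a := s + η) (b := t - η)).elim_directed_family_closed
    (fun A : c => (A : Set ℝ)) (fun A => (hc A.2).1) (by
      rw [← sInter_eq_iInter]
      apply subset_empty_iff.1
      rintro y ⟨hy1, hy2⟩
      have : y ∈ Ioo s t ∩ ⋂₀ c := ⟨⟨by linarith [hy1.1], by linarith [hy1.2]⟩, hy2⟩
      rw [hgap] at this
      exact this) (by
      rintro ⟨A, hA⟩ ⟨B, hB⟩
      rcases hch.total hA hB with h | h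
      · exact ⟨⟨A, hA⟩, subset_rfl, h⟩
      · exact ⟨⟨B, hB⟩, h, subset_rfl⟩)
  simp only at hKA
  obtain ⟨a1, a2, a3, a4, a5⟩ := hc hA
  have hsA : s ∈ A := hs A hA
  have htA : t ∈ A := ht A hA
  have bA : BddAbove (A ∩ Iic (s + η)) := ⟨s + η, fun y hy => hy.2⟩
  have nA : (A ∩ Iic (s + η)).Nonempty := ⟨s, hsA, by simp only [mem_Iic]; linarith⟩
  have bB : BddBelow (A ∩ Ici (t - η)) := ⟨t - η, fun y hy => hy.2⟩
  have nB : (A ∩ Ici (t - η)).Nonempty := ⟨t, htA, by simp only [mem_Ici]; linarith⟩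
  have m1 := (a1.inter isClosed_Iic).csSup_mem nA bA
  have m2 := (a1.inter isClosed_Ici).csInf_mem nB bB
  set s' := sSup (A ∩ Iic (s + η)) with hs'
  set t' := sInf (A ∩ Ici (t - η)) with ht'
  have l1 : s ≤ s' := le_csSup bA ⟨hsA, by simp only [mem_Iic]; linarith⟩
  have l2 : s' ≤ s + η := m1.2
  have l3 : t' ≤ t := csInf_le bB ⟨htA, by simp only [mem_Ici]; linarith⟩
  have l4 : t - η ≤ t' := m2.2
  have hg : Ioo s' t' ∩ A = ∅ := by
    apply subset_empty_iff.1
    rintro y ⟨hy1, hy2⟩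
    by_cases k1 : y ≤ s + η
    · have : y ≤ s' := le_csSup bA ⟨hy2, k1⟩
      exact absurd this (not_le.2 hy1.1)
    by_cases k2 : t - η ≤ y
    · have : t' ≤ y := csInf_le bB ⟨hy2, k2⟩
      exact absurd this (not_le.2 hy1.2)
    rw [← hKA]
    exact ⟨⟨(not_le.1 k1).le, (not_le.1 k2).le⟩, hy2⟩
  have he := a5 s' m1.1 t' m2.1 (by linarith) hg
  have u1 : γ s' ∈ U := h1 (by
    rw [Metric.mem_ball, Real.dist_eq, abs_lt]
    constructor <;> linarith)
  have u2 : γ t' ∈ V := h2 (by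
    rw [Metric.mem_ball, Real.dist_eq, abs_lt]
    constructor <;> linarith)
  rw [he] at u1
  exact Set.disjoint_left.1 hUV u1 u2

/-- the last point of `A` before `x` -/
private noncomputable def sg (A : Set ℝ) (x : ℝ) : ℝ := sSup (A ∩ Iic x)

/-- the first point of `A` after `x` -/
private noncomputable def ta (A : Set ℝ) (x : ℝ) : ℝ := sInf (A ∩ Ici x)

private theorem bA (A : Set ℝ) (x : ℝ) : BddAbove (A ∩ Iic x) := ⟨x, fun _ hy => hy.2⟩

private theorem bB (A : Set ℝ) (x : ℝ) : BddBelow (A ∩ Ici x) := ⟨x, fun _ hy => hy.2⟩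

private theorem sg_mem {γ : ℝ → S} {A : Set ℝ} (hA : A ∈ Fam γ) {x : ℝ} (hx : 0 ≤ x) :
    sg A x ∈ A ∧ sg A x ≤ x :=
  (hA.1.inter isClosed_Iic).csSup_mem ⟨0, hA.2.2.1, hx⟩ (bA A x)

private theorem ta_mem {γ : ℝ → S} {A : Set ℝ} (hA : A ∈ Fam γ) {x : ℝ} (hx : x ≤ 1) :
    ta A x ∈ A ∧ x ≤ ta A x :=
  (hA.1.inter isClosed_Ici).csInf_mem ⟨1, hA.2.2.2.1, hx⟩ (bB A x)

private theorem le_sg {A : Set ℝ} {x y : ℝ} (hy : y ∈ A) (hyx : y ≤ x) : y ≤ sg A x :=
  le_csSup (bA A x) ⟨hy, hyx⟩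

private theorem ta_le {A : Set ℝ} {x y : ℝ} (hy : y ∈ A) (hyx : x ≤ y) : ta A x ≤ y :=
  csInf_le (bB A x) ⟨hy, hyx⟩

private theorem gap {A : Set ℝ} {x : ℝ} (hxA : x ∉ A) : Ioo (sg A x) (ta A x) ∩ A = ∅ := by
  apply subset_empty_iff.1
  rintro y ⟨hy1, hy2⟩
  rcases lt_trichotomy y x with h | h | h
  · exact absurd (le_sg hy2 h.le) (not_le.2 hy1.1)
  · exact hxA (h ▸ hy2)
  · exact absurd (ta_le hy2 h.le) (not_le.2 hy1.2)

private theorem sg_self {γ : ℝ → S} {A : Set ℝ} (hA : A ∈ Fam γ) {x : ℝ} (hx : x ∈ A) :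
    sg A x = x :=
  le_antisymm (sg_mem hA (hA.2.1 hx).1).2 (le_sg hx le_rfl)

private theorem ta_self {γ : ℝ → S} {A : Set ℝ} (hA : A ∈ Fam γ) {x : ℝ} (hx : x ∈ A) :
    ta A x = x :=
  le_antisymm (ta_le hx le_rfl) (ta_mem hA (hA.2.1 hx).2).2

private theorem sg_ta {γ : ℝ → S} {A : Set ℝ} (hA : A ∈ Fam γ) {x : ℝ} (h0 : 0 ≤ x) (h1 : x ≤ 1) :
    γ (sg A x) = γ (ta A x) := by
  by_cases hx : x ∈ A
  · rw [sg_self hA hx, ta_self hA hx]
  · obtain ⟨a1, a2⟩ := sg_mem hA h0
    obtain ⟨b1, b2⟩ := ta_mem hA h1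
    have c1 : sg A x < x := lt_of_le_of_ne a2 fun h => hx (h ▸ a1)
    have c2 : x < ta A x := lt_of_le_of_ne b2 fun h => hx (h ▸ b1)
    exact hA.2.2.2.2 _ a1 _ b1 (c1.trans c2) (gap hx)

/-- the path with the loops removed -/
private noncomputable def dl (γ : ℝ → S) (A : Set ℝ) (x : unitInterval) : S := γ (sg A x)

private theorem dl_cont {γ : ℝ → S} (hγ : Continuous γ) {A : Set ℝ} (hA : A ∈ Fam γ) :
    Continuous (dl γ A) := by
  rw [continuous_iff_continuousAt]
  intro x W hW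
  by_cases hx : (x : ℝ) ∈ A
  · have e : dl γ A x = γ x := by rw [dl, sg_self hA hx]
    rw [e] at hW
    obtain ⟨ε, hε, h1⟩ := Metric.mem_nhds_iff.1 (hγ.continuousAt (x := (x : ℝ)) hW)
    refine Filter.mem_map.2 (Filter.mem_of_superset (Metric.ball_mem_nhds x hε) fun y hy => ?_)
    rw [Metric.mem_ball, Subtype.dist_eq, Real.dist_eq, abs_lt] at hy
    rcases le_total (x : ℝ) y with h | h
    · have l1 := le_sg hx h
      have l2 := (sg_mem hA y.2.1).2
      exact h1 (by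
        rw [Metric.mem_ball, Real.dist_eq, abs_lt]
        constructor <;> linarith)
    · have l1 := ta_le hx h
      have l2 := (ta_mem hA y.2.2).2
      change γ (sg A y) ∈ W
      rw [sg_ta hA y.2.1 y.2.2]
      exact h1 (by
        rw [Metric.mem_ball, Real.dist_eq, abs_lt]
        constructor <;> linarith)
  · obtain ⟨a1, a2⟩ := sg_mem hA x.2.1
    obtain ⟨b1, b2⟩ := ta_mem hA x.2.2
    have c1 : sg A x < x := lt_of_le_of_ne a2 fun h => hx (h ▸ a1)
    have c2 : (x : ℝ) < ta A x := lt_of_le_of_ne b2 fun h => hx (h ▸ b1)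
    have hO : IsOpen ((fun y : unitInterval => (y : ℝ)) ⁻¹' Ioo (sg A x) (ta A x)) :=
      isOpen_Ioo.preimage continuous_subtype_val
    refine Filter.mem_map.2 (Filter.mem_of_superset (hO.mem_nhds ⟨c1, c2⟩) fun y hy => ?_)
    have e : sg A y = sg A x := by
      apply le_antisymm
      · obtain ⟨d1, d2⟩ := sg_mem hA y.2.1
        by_contra hcon
        have : sg A y ∈ Ioo (sg A x) (ta A x) ∩ A :=
          ⟨⟨not_le.1 hcon, lt_of_le_of_lt d2 hy.2⟩, d1⟩
        rw [gap hx] at this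
        exact this
      · exact le_sg a1 (le_of_lt hy.1)
    change γ (sg A y) ∈ W
    rw [e]
    exact mem_of_mem_nhds hW

private theorem dl_const {γ : ℝ → S} {A : Set ℝ} (hA : Minimal (· ∈ Fam γ) A)
    {s t x : unitInterval} (hsx : s ≤ x) (hxt : x ≤ t) (h : dl γ A s = dl γ A t) :
    dl γ A x = dl γ A s := by
  have hF := hA.1
  obtain ⟨a1, a2⟩ := sg_mem hF s.2.1
  obtain ⟨b1, b2⟩ := sg_mem hF t.2.1
  obtain ⟨c1, c2⟩ := sg_mem hF x.2.1
  have hsx' : (s : ℝ) ≤ x := hsx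
  have hxt' : (x : ℝ) ≤ t := hxt
  have l1 : sg A s ≤ sg A x := le_sg a1 (a2.trans hsx')
  have l2 : sg A x ≤ sg A t := le_sg c1 (c2.trans hxt')
  have h' : γ (sg A s) = γ (sg A t) := h
  rcases (l1.trans l2).eq_or_lt with he | hlt
  · have : sg A x = sg A s := le_antisymm (by rw [he]; exact l2) l1
    rw [dl, this, dl]
  · have hA' : A \ Ioo (sg A s) (sg A t) ∈ Fam γ := by
      refine ⟨hF.1.sdiff isOpen_Ioo, diff_subset.trans hF.2.1,
        ⟨hF.2.2.1, fun k => absurd (hF.2.1 a1).1 (not_le.2 k.1)⟩,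
        ⟨hF.2.2.2.1, fun k => absurd (hF.2.1 b1).2 (not_le.2 k.2)⟩, ?_⟩
      intro a ha b hb hab hg
      by_cases hg' : Ioo a b ∩ A = ∅
      · exact hF.2.2.2.2 a ha.1 b hb.1 hab hg'
      · obtain ⟨y, hy1, hy2⟩ := nonempty_iff_ne_empty.2 hg'
        have hy3 : y ∈ Ioo (sg A s) (sg A t) := by
          by_contra hcon
          have : y ∈ Ioo a b ∩ (A \ Ioo (sg A s) (sg A t)) := ⟨hy1, hy2, hcon⟩
          rw [hg] at this
          exact this
        have k1 : sg A s ≤ a := by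
          by_contra hcon
          have : sg A s ∈ Ioo a b ∩ (A \ Ioo (sg A s) (sg A t)) :=
            ⟨⟨not_le.1 hcon, hy3.1.trans hy1.2⟩, a1, fun k => lt_irrefl _ k.1⟩
          rw [hg] at this
          exact this
        have k2 : b ≤ sg A t := by
          by_contra hcon
          have : sg A t ∈ Ioo a b ∩ (A \ Ioo (sg A s) (sg A t)) :=
            ⟨⟨hy1.1.trans hy3.2, not_le.1 hcon⟩, b1, fun k => lt_irrefl _ k.2⟩
          rw [hg] at this
          exact this
        have k3 : a ≤ sg A s := by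
          by_contra hcon
          exact ha.2 ⟨not_le.1 hcon, hy1.1.trans hy3.2⟩
        have k4 : sg A t ≤ b := by
          by_contra hcon
          exact hb.2 ⟨hy3.1.trans hy1.2, not_le.1 hcon⟩
        rw [le_antisymm k3 k1, le_antisymm k2 k4]
        exact h'
    have hmin : A ≤ A \ Ioo (sg A s) (sg A t) := hA.2 hA' diff_subset
    have hx : sg A x ∉ Ioo (sg A s) (sg A t) := (hmin c1).2
    rcases l1.eq_or_lt with e | e
    · rw [dl, dl, ← e]
    · have e2 : sg A x = sg A t := by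
        rcases l2.eq_or_lt with k | k
        · exact k
        · exact absurd ⟨e, k⟩ hx
      rw [dl, dl, e2, h']

end one

section two

variable {S : Type} [TopologicalSpace S] [T2Space S]

private theorem mono_fun (δ : unitInterval → S) (hδ : Continuous δ)
    (hc : ∀ s t x : unitInterval, s ≤ x → x ≤ t → δ s = δ t → δ x = δ s) (a b : unitInterval) :
    ∃ m : unitInterval → ℝ, Continuous m ∧ Monotone m ∧ (∀ x, 0 ≤ m x ∧ m x ≤ 1) ∧
      (∀ x y, δ x = δ y → m x = m y) ∧ (a < b → δ a ≠ δ b → m a < m b) := by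
  by_cases hab : δ a = δ b
  · exact ⟨fun _ => 0, continuous_const, monotone_const, fun _ => ⟨le_rfl, zero_le_one⟩,
      fun _ _ _ => rfl, fun _ h => absurd hab h⟩
  have hinst : CompactSpace (range δ) := isCompact_iff_compactSpace.1 (isCompact_range hδ)
  obtain ⟨f, f1, f2, f3⟩ := exists_continuous_zero_one_of_isClosed
    (X := range δ) (s := {⟨δ a, a, rfl⟩}) (t := {⟨δ b, b, rfl⟩}) isClosed_singleton
    isClosed_singleton (by
      rw [disjoint_singleton]
      intro h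
      exact hab (congrArg Subtype.val h))
  have hf1 : f ⟨δ a, a, rfl⟩ = 0 := f1 rfl
  have hf2 : f ⟨δ b, b, rfl⟩ = 1 := f2 rfl
  obtain ⟨g, hg, hga, hgb, hg01, hgc⟩ : ∃ g : unitInterval → ℝ, Continuous g ∧ g a = 0 ∧ g b = 1 ∧
      (∀ x, 0 ≤ g x ∧ g x ≤ 1) ∧ ∀ x y, δ x = δ y → g x = g y := by
    refine ⟨fun x => f ⟨δ x, x, rfl⟩, ?_, hf1, hf2, fun x => f3 _, ?_⟩
    · exact f.continuous.comp (hδ.subtype_mk _)
    · intro x y h
      have : (⟨δ x, x, rfl⟩ : range δ) = ⟨δ y, y, rfl⟩ := Subtype.ext h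
      exact congrArg f this
  set F : unitInterval → unitInterval → ℝ := fun x t => g (max a (min t x)) with hF
  have hFc : Continuous ↿F := by
    change Continuous (fun z : unitInterval × unitInterval => g (max a (min z.2 z.1)))
    exact hg.comp (continuous_const.max (continuous_snd.min continuous_fst))
  have hbd : ∀ x, BddAbove (F x '' univ) := by
    intro x
    refine ⟨1, ?_⟩
    rintro _ ⟨t, -, rfl⟩
    exact (hg01 _).2
  have hne : ∀ x, (F x '' univ).Nonempty := fun x => ⟨_, a, mem_univ _, rfl⟩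
  have hle : ∀ x t, F x t ≤ sSup (F x '' univ) := fun x t => le_csSup (hbd x) ⟨t, mem_univ _, rfl⟩
  have hmono : Monotone fun x => sSup (F x '' univ) := by
    intro x x' hx
    apply csSup_le (hne x)
    rintro _ ⟨t, -, rfl⟩
    have e : F x t = F x' (min t x) := by
      simp only [hF]
      rw [min_eq_left ((min_le_right t x).trans hx)]
    rw [e]
    exact hle x' _
  have key : ∀ x y : unitInterval, x ≤ y → δ x = δ y →
      sSup (F x '' univ) = sSup (F y '' univ) := by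
    intro x y hxy h
    apply le_antisymm (hmono hxy)
    apply csSup_le (hne y)
    rintro _ ⟨t, -, rfl⟩
    rcases le_total (min t y) x with k | k
    · have e : F y t = F x (min t y) := by
        simp only [hF]
        rw [min_eq_left k]
      rw [e]
      exact hle x _
    · have e : F y t = F x x := by
        simp only [hF]
        rw [min_self]
        apply hgc
        rcases le_total (min t y) a with k2 | k2
        · rw [max_eq_left k2, max_eq_left (k.trans k2)]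
        · rw [max_eq_right k2]
          have h1 : δ (min t y) = δ x := hc x y _ k (min_le_right _ _) h
          rw [h1]
          exact (hc x (min t y) (max a x) (le_max_right _ _) (max_le k2 k) h1.symm).symm
      rw [e]
      exact hle x _
  refine ⟨fun x => sSup (F x '' univ), isCompact_univ.continuous_sSup hFc, hmono, ?_, ?_, ?_⟩
  · intro x
    exact ⟨(hg01 _).1.trans (hle x a), csSup_le (hne x) (by
      rintro _ ⟨t, -, rfl⟩
      exact (hg01 _).2)⟩
  · intro x y h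
    rcases le_total x y with k | k
    · exact key x y k h
    · exact (key y x k h.symm).symm
  · intro hlt _
    have e1 : sSup (F a '' univ) ≤ 0 := by
      apply csSup_le (hne a)
      rintro _ ⟨t, -, rfl⟩
      simp only [hF]
      rw [max_eq_left (min_le_right t a), hga]
    have e2 : 1 ≤ sSup (F b '' univ) := by
      have e : F b b = 1 := by
        simp only [hF]
        rw [min_self, max_eq_right hlt.le, hgb]
      rw [← e]
      exact hle b b
    simp only
    linarith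

private theorem strict_fun (δ : unitInterval → S) (hδ : Continuous δ)
    (hc : ∀ s t x : unitInterval, s ≤ x → x ≤ t → δ s = δ t → δ x = δ s) :
    ∃ M : unitInterval → ℝ, Continuous M ∧ Monotone M ∧
      (∀ x y, δ x = δ y → M x = M y) ∧ (∀ x y, x < y → δ x ≠ δ y → M x < M y) := by
  choose m m1 m2 m3 m4 m5 using mono_fun δ hδ hc
  let D : ℕ → unitInterval := TopologicalSpace.denseSeq unitInterval
  have hD : DenseRange D := TopologicalSpace.denseRange_denseSeq _
  let F : ℕ → unitInterval → ℝ := fun n x => (1 / 2) ^ n * m (D n.unpair.1) (D n.unpair.2) x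
  have hbd : ∀ n x, ‖F n x‖ ≤ (1 / 2) ^ n := by
    intro n x
    have h := m3 (D n.unpair.1) (D n.unpair.2) x
    rw [Real.norm_eq_abs, abs_of_nonneg (mul_nonneg (by positivity) h.1)]
    have h2 : (0 : ℝ) ≤ (1 / 2) ^ n := by positivity
    calc (1 / 2 : ℝ) ^ n * m (D n.unpair.1) (D n.unpair.2) x ≤ (1 / 2) ^ n * 1 :=
          mul_le_mul_of_nonneg_left h.2 h2
      _ = (1 / 2) ^ n := mul_one _
  have hsum : ∀ x, Summable fun n => F n x := fun x =>
    Summable.of_norm_bounded summable_geometric_two (fun n => hbd n x)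
  have hFm : ∀ n x y, x ≤ y → F n x ≤ F n y := fun n x y hxy =>
    mul_le_mul_of_nonneg_left (m2 _ _ hxy) (by positivity)
  refine ⟨fun x => ∑' n, F n x, ?_, ?_, ?_, ?_⟩
  · exact continuous_tsum (fun n => continuous_const.mul (m1 _ _)) summable_geometric_two hbd
  · intro x y hxy
    exact (hsum x).tsum_le_tsum (fun n => hFm n x y hxy) (hsum y)
  · intro x y h
    apply tsum_congr
    intro n
    change (1 / 2 : ℝ) ^ n * _ = (1 / 2 : ℝ) ^ n * _
    rw [m4 _ _ x y h]
  · intro x y hxy hne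
    obtain ⟨U, V, hU, hV, hxU, hyV, hUV⟩ := t2_separation hne
    have hx1 : x ∈ closure (Ioo x y) := by
      rw [closure_Ioo hxy.ne]
      exact ⟨le_rfl, hxy.le⟩
    obtain ⟨a', ha1, ha2⟩ := mem_closure_iff.1 hx1 (δ ⁻¹' U) (hU.preimage hδ) hxU
    obtain ⟨i, hi⟩ := hD.exists_mem_open ((hU.preimage hδ).inter isOpen_Ioo) ⟨a', ha1, ha2⟩
    have hy1 : y ∈ closure (Ioo (D i) y) := by
      rw [closure_Ioo hi.2.2.ne]
      exact ⟨hi.2.2.le, le_rfl⟩
    obtain ⟨b', hb1, hb2⟩ := mem_closure_iff.1 hy1 (δ ⁻¹' V) (hV.preimage hδ) hyV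
    obtain ⟨j, hj⟩ := hD.exists_mem_open ((hV.preimage hδ).inter isOpen_Ioo) ⟨b', hb1, hb2⟩
    have hij : D i < D j := hj.2.1
    have hne' : δ (D i) ≠ δ (D j) := fun h =>
      Set.disjoint_left.1 hUV hi.1 (by rw [h]; exact hj.1)
    have hlt := m5 (D i) (D j) hij hne'
    refine Summable.tsum_lt_tsum (i := Nat.pair i j) (fun n => hFm n x y hxy.le) ?_ (hsum x) (hsum y)
    change (1 / 2 : ℝ) ^ _ * m (D (Nat.unpair (Nat.pair i j)).1) (D (Nat.unpair (Nat.pair i j)).2) x <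
      (1 / 2 : ℝ) ^ _ * m (D (Nat.unpair (Nat.pair i j)).1) (D (Nat.unpair (Nat.pair i j)).2) y
    rw [Nat.unpair_pair]
    apply mul_lt_mul_of_pos_left _ (by positivity)
    calc m (D i) (D j) x ≤ m (D i) (D j) (D i) := m2 _ _ hi.2.1.le
      _ < m (D i) (D j) (D j) := hlt
      _ ≤ m (D i) (D j) y := m2 _ _ hj.2.2.le

private theorem arc_of (δ : unitInterval → S) (hδ : Continuous δ)
    (hc : ∀ s t x : unitInterval, s ≤ x → x ≤ t → δ s = δ t → δ x = δ s) (h01 : δ 0 ≠ δ 1) :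
    IsArc (range δ) (δ 0) (δ 1) := by
  obtain ⟨M, M1, M2, M3, M4⟩ := strict_fun δ hδ hc
  have hpos : 0 < M 1 - M 0 := sub_pos.2 (M4 0 1 zero_lt_one h01)
  have h0 : ∀ x, M 0 ≤ M x := fun x => M2 (unitInterval.nonneg x)
  have h1 : ∀ x, M x ≤ M 1 := fun x => M2 (unitInterval.le_one x)
  let N : unitInterval → unitInterval := fun x =>
    ⟨(M x - M 0) / (M 1 - M 0), div_nonneg (sub_nonneg.2 (h0 x)) hpos.le,
      (div_le_one hpos).2 (sub_le_sub_right (h1 x) _)⟩
  have hNc : Continuous N := ((M1.sub continuous_const).div_const _).subtype_mk _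
  have hN0 : N 0 = 0 := Subtype.ext (by
    change (M 0 - M 0) / (M 1 - M 0) = 0
    rw [sub_self, zero_div])
  have hN1 : N 1 = 1 := Subtype.ext (by
    change (M 1 - M 0) / (M 1 - M 0) = 1
    exact div_self hpos.ne')
  have hNs : Function.Surjective N := by
    intro y
    have hy : y ∈ Icc (N 0) (N 1) := by
      rw [hN0, hN1]
      exact ⟨unitInterval.nonneg y, unitInterval.le_one y⟩
    obtain ⟨x, -, hx⟩ := intermediate_value_Icc (zero_le_one : (0 : unitInterval) ≤ 1)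
      hNc.continuousOn hy
    exact ⟨x, hx⟩
  have hNe : ∀ x y, N x = N y ↔ δ x = δ y := by
    intro x y
    have e1 : N x = N y ↔ M x = M y := by
      rw [Subtype.ext_iff]
      change (M x - M 0) / (M 1 - M 0) = (M y - M 0) / (M 1 - M 0) ↔ _
      rw [div_left_inj' hpos.ne', sub_left_inj]
    rw [e1]
    refine ⟨fun h => ?_, M3 x y⟩
    by_contra hne
    rcases lt_trichotomy x y with k | k | k
    · exact absurd h (M4 x y k hne).ne
    · exact hne (congrArg δ k)
    · exact absurd h (M4 y x k (Ne.symm hne)).ne'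
  let R : unitInterval → unitInterval := Function.surjInv hNs
  have hR : ∀ y, N (R y) = y := Function.surjInv_eq hNs
  have hRd : ∀ x, δ (R (N x)) = δ x := fun x => (hNe _ _).1 (hR (N x))
  have hq : IsQuotientMap N := hNc.isClosedMap.isQuotientMap hNc hNs
  have hcont : Continuous fun y => δ (R y) := by
    rw [hq.continuous_iff]
    have e : (fun y => δ (R y)) ∘ N = δ := funext hRd
    rw [e]
    exact hδ
  refine ⟨⟨⟨fun y => δ (R y), hcont⟩, ?_, ?_⟩, ?_, ?_⟩
  · change δ (R 0) = δ 0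
    rw [← hN0, hRd, hN0]
  · change δ (R 1) = δ 1
    rw [← hN1, hRd, hN1]
  · intro y y' h
    have h' : δ (R y) = δ (R y') := h
    rw [← hR y, ← hR y']
    exact (hNe _ _).2 h'
  · apply Subset.antisymm
    · rintro _ ⟨y, rfl⟩
      exact ⟨R y, rfl⟩
    · rintro _ ⟨x, rfl⟩
      exact ⟨N x, hRd x⟩

end two

theorem hARX : StARX := by
  intro S _ _ U p q hj hpq
  obtain ⟨c, hcU⟩ := hj
  let γ : ℝ → S := c.extend
  have hγ : Continuous γ := c.continuous_extend
  have hγ0 : γ 0 = p := c.extend_zero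
  have hγ1 : γ 1 = q := c.extend_one
  obtain ⟨A, -, hA⟩ := zorn_superset_nonempty (Fam γ) (fun ch h1 h2 h3 =>
    ⟨⋂₀ ch, fam_chain hγ ch h1 h2 h3, fun s hs => sInter_subset_of_mem hs⟩) (Icc 0 1) (fam_Icc γ)
  have hF : A ∈ Fam γ := hA.1
  have e0 : dl γ A 0 = p := by
    change γ (sg A 0) = p
    rw [sg_self hF hF.2.2.1, hγ0]
  have e1 : dl γ A 1 = q := by
    change γ (sg A 1) = q
    rw [sg_self hF hF.2.2.2.1, hγ1]
  have h := arc_of (dl γ A) (dl_cont hγ hF) (fun s t x h1 h2 h3 => dl_const hA h1 h2 h3)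
    (by rw [e0, e1]; exact hpq)
  rw [e0, e1] at h
  refine ⟨range (dl γ A), ?_, h⟩
  rintro _ ⟨x, rfl⟩
  have hx := hF.2.1 (sg_mem hF x.2.1).1
  have e : dl γ A x = c ⟨sg A x, hx⟩ := c.extend_apply hx
  rw [e]
  exact hcU _

end Pool.Agent.Helper82.TW
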