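import Pool.Agent.Helper9.TW.St

/-!
# Project TW, module C5: divisor sum of a decomposed weight
-/

set_option autoImplicit false

noncomputable section

namespace Pool.Agent.Helper82.TW

open Finset Pool.Agent.Helper9.TW

theorem key_C5 (a k : ℕ) (z M N : ℝ) (al be : ℕ → ℝ) (hk : 1 ≤ k)
    (hsq : ∀ p : ℕ, p.Prime → z ≤ (p : ℝ) → ¬ p ^ 2 ∣ k)
    (hal : ∀ m, al m ≠ 0 → Rg a z m ∧ (m : ℝ) ≤ M) (hbe : ∀ m, be m ≠ 0 → Rg a z m ∧ (m : ℝ) ≤ N)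
    (x : ℕ × ℕ) (hx : al x.1 * be x.2 ≠ 0) :
    x ∈ (k.divisors ×ˢ k.divisors).filter (fun x => x.1 * x.2 ∣ k ∧ Nat.Coprime x.1 x.2) ↔
      x ∈ (Icc 1 ⌊M⌋₊ ×ˢ Icc 1 ⌊N⌋₊).filter (fun x => x.1 * x.2 ∣ k) := by
  have hk0 : k ≠ 0 := by omega
  have h1 : al x.1 ≠ 0 := left_ne_zero_of_mul hx
  have h2 : be x.2 ≠ 0 := right_ne_zero_of_mul hx
  obtain ⟨⟨hs1, hp1⟩, hM⟩ := hal _ h1
  obtain ⟨⟨hs2, hp2⟩, hN⟩ := hbe _ h2
  have hx1 : x.1 ≠ 0 := hs1.ne_zero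
  have hx2 : x.2 ≠ 0 := hs2.ne_zero
  rw [mem_filter, mem_filter, mem_product, mem_product, Nat.mem_divisors, Nat.mem_divisors,
    mem_Icc, mem_Icc]
  constructor
  · rintro ⟨_, h3, _⟩
    exact ⟨⟨⟨by omega, Nat.le_floor hM⟩, ⟨by omega, Nat.le_floor hN⟩⟩, h3⟩
  · rintro ⟨_, h3⟩
    refine ⟨⟨⟨(Dvd.intro _ rfl).trans h3, hk0⟩, ⟨(Dvd.intro_left _ rfl).trans h3, hk0⟩⟩, h3, ?_⟩
    by_contra hc
    obtain ⟨p, hp, hpa, hpb⟩ := Nat.Prime.not_coprime_iff_dvd.1 hc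
    refine hsq p hp (hp1 p hp hpa).1 ?_
    rw [pow_two]
    exact (mul_dvd_mul hpa hpb).trans h3

theorem one_C5 (a k : ℕ) (z M N : ℝ) (al be : ℕ → ℝ) (hk : 1 ≤ k)
    (hsq : ∀ p : ℕ, p.Prime → z ≤ (p : ℝ) → ¬ p ^ 2 ∣ k)
    (hal : ∀ m, al m ≠ 0 → Rg a z m ∧ (m : ℝ) ≤ M) (hbe : ∀ m, be m ≠ 0 → Rg a z m ∧ (m : ℝ) ≤ N) :
    ∑ q ∈ k.divisors, cc al be q = ∑ m ∈ Icc 1 ⌊M⌋₊, ∑ n ∈ Icc 1 ⌊N⌋₊,
      al m * be n * (if m * n ∣ k then (1 : ℝ) else 0) := by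
  classical
  have hk0 : k ≠ 0 := by omega
  set f : ℕ × ℕ → ℝ := fun x => al x.1 * be x.2 with hf
  set S : Finset (ℕ × ℕ) := (k.divisors ×ˢ k.divisors).filter
    (fun x => x.1 * x.2 ∣ k ∧ Nat.Coprime x.1 x.2) with hS
  set S' : Finset (ℕ × ℕ) := (Icc 1 ⌊M⌋₊ ×ˢ Icc 1 ⌊N⌋₊).filter (fun x => x.1 * x.2 ∣ k) with hS'
  have hL : ∑ q ∈ k.divisors, cc al be q = ∑ x ∈ S, f x := by
    have hmaps : ∀ x ∈ S, x.1 * x.2 ∈ k.divisors := by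
      intro x hx
      rw [hS, mem_filter] at hx
      exact Nat.mem_divisors.2 ⟨hx.2.1, hk0⟩
    rw [← Finset.sum_fiberwise_of_maps_to hmaps]
    refine sum_congr rfl fun q hq => ?_
    rw [Nat.mem_divisors] at hq
    have hq0 : q ≠ 0 := fun h => hk0 (Nat.eq_zero_of_zero_dvd (h ▸ hq.1))
    unfold cc
    refine sum_congr ?_ fun x _ => rfl
    ext x
    rw [mem_filter, Nat.mem_divisorsAntidiagonal, mem_filter, hS, mem_filter, mem_product,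
      Nat.mem_divisors, Nat.mem_divisors]
    constructor
    · rintro ⟨⟨h1, _⟩, h2⟩
      have h3 : x.1 ∣ k := (h1 ▸ Dvd.intro _ rfl : x.1 ∣ q).trans hq.1
      have h4 : x.2 ∣ k := (h1 ▸ Dvd.intro_left _ rfl : x.2 ∣ q).trans hq.1
      exact ⟨⟨⟨⟨h3, hk0⟩, ⟨h4, hk0⟩⟩, by rw [h1]; exact hq.1, h2⟩, h1⟩
    · rintro ⟨⟨_, _, h2⟩, h1⟩
      exact ⟨⟨h1, hq0⟩, h2⟩
  have hR : ∑ m ∈ Icc 1 ⌊M⌋₊, ∑ n ∈ Icc 1 ⌊N⌋₊, al m * be n * (if m * n ∣ k then (1 : ℝ) else 0) =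
      ∑ x ∈ S', f x := by
    rw [hS', sum_filter, sum_product]
    refine sum_congr rfl fun m _ => sum_congr rfl fun n _ => ?_
    simp only [hf]
    split_ifs <;> simp
  have key : ∀ x, f x ≠ 0 → (x ∈ S ↔ x ∈ S') := by
    intro x hx
    exact key_C5 a k z M N al be hk hsq hal hbe x hx
  rw [hL, hR, ← sum_filter_ne_zero, ← sum_filter_ne_zero (s := S')]
  refine sum_congr (Finset.ext fun x => ?_) fun x _ => rfl
  constructor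
  · intro h
    have h' := Finset.mem_filter.1 h
    exact Finset.mem_filter.2 ⟨(key x h'.2).1 h'.1, h'.2⟩
  · intro h
    have h' := Finset.mem_filter.1 h
    exact Finset.mem_filter.2 ⟨(key x h'.2).2 h'.1, h'.2⟩

theorem hC5 : StC5 := by
  intro a k T z M N l al be hk hsq hal hbe hl
  have h1 : ∀ q ∈ k.divisors, l q = ∑ t ∈ range T, cc (al t) (be t) q := fun q _ => hl q
  rw [sum_congr rfl h1, sum_comm]
  exact sum_congr rfl fun t _ => one_C5 a k z M N (al t) (be t) hk hsq (hal t) (hbe t)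

end Pool.Agent.Helper82.TW
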